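import Pool.Agent.Helper20.OP.I.Def

/-!
# Interval orders: the model

Elements: `inl (s, i)`: the points, `s = 0` rows at the position `i`, `s = 1` columns at `N + 1 + i`, `s = 2` thirds at
`2 N + 2 + i` (`i < N`); `inr (inl d)`, `d < 4`: delimiters, `d < 2` at the position `N`, `d ≥ 2` at `2 N + 1`;
`inr (inr (i, j, k))`, `k < q + 1`: the interval from the row `i` to the column `j` if `k ≤ κ i j`, and from the column `j` to
the third `i` if `k > κ i j`.  `x < y` iff `hi x < lo y`.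
-/

set_option autoImplicit false

namespace Pool.Agent.Helper20.OP.I

/-- the elements -/
abbrev Elt (q N : ℕ) : Type := (Fin 3 × Fin N) ⊕ (Fin 4 ⊕ (Fin N × Fin N × Fin (q + 1)))

/-- left end -/
def lo (q : ℕ) (κ : ℕ → ℕ → ℕ) (N : ℕ) : Elt q N → ℕ
  | Sum.inl (s, i) => (N + 1) * s.1 + i.1
  | Sum.inr (Sum.inl d) => if d.1 < 2 then N else 2 * N + 1
  | Sum.inr (Sum.inr (i, j, k)) => if k.1 ≤ κ i j then i.1 else N + 1 + j.1

/-- right end -/
def hi (q : ℕ) (κ : ℕ → ℕ → ℕ) (N : ℕ) : Elt q N → ℕ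
  | Sum.inl (s, i) => (N + 1) * s.1 + i.1
  | Sum.inr (Sum.inl d) => if d.1 < 2 then N else 2 * N + 1
  | Sum.inr (Sum.inr (i, j, k)) => if k.1 ≤ κ i j then N + 1 + j.1 else 2 * N + 2 + i.1

/-- the interval order -/
def ivo (q : ℕ) (κ : ℕ → ℕ → ℕ) (N : ℕ) : Str 1 (Elt q N) := fun _ x y => hi q κ N x < lo q κ N y

/-- the standing assumptions -/
def Good (q : ℕ) (κ : ℕ → ℕ → ℕ) (N : ℕ) : Prop := 2 ≤ N ∧ ∀ i j, i < N → j < N → κ i j < q

/-- interval orders -/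
def Interval (V : Type) (R : Str 1 V) : Prop :=
  ∃ l r : V → ℕ, (∀ x, l x ≤ r x) ∧ ∀ x y, R 0 x y ↔ r x < l y

lemma interval_ivo (q : ℕ) (κ : ℕ → ℕ → ℕ) (N : ℕ) : Interval (Elt q N) (ivo q κ N) := by
  refine ⟨lo q κ N, hi q κ N, ?_, fun _ _ => Iff.rfl⟩
  rintro (⟨s, i⟩ | d | ⟨i, j, k⟩)
  · exact le_refl _
  · exact le_refl _
  · have := i.2
    have := j.2
    simp only [lo, hi]
    split_ifs <;> omega

end Pool.Agent.Helper20.OP.I
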