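import Pool.Agent.Helper20.OP.I.Ivl

/-!
# Block OP-I2: the model satisfies the condition

`z i` is the row `i`; `c (κ i j) = (f i j, i = j)`.  `D₁ (row i) (column j)` iff `i = j`; `D₂ (column j) (third i)` iff
`i = j` (for `κ' < q` with `q - κ' = q - κ i j`: `κ' = κ i j`).  `own`: `inl (s, i)` is owned by `i`, the delimiters by nobody,
`(i, j, k)` by the pair `(i, j)`: `O₂ v (row i) (row j)`: `v` is an interval from row `i` to column `j`, or from column `j` to the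
third `i`.  Numbers: `3`, `q + 1`, `4`.
-/

set_option autoImplicit false

namespace Pool.Agent.Helper20.OP.I

open Pool.Agent.Helper29.Prefix

variable {q : ℕ} {κ : ℕ → ℕ → ℕ} {N : ℕ}

/-- the owner -/
def ownI (q N : ℕ) : Elt q N → Option (ℕ ⊕ ℕ × ℕ)
  | Sum.inl (_, i) => some (Sum.inl i.1)
  | Sum.inr (Sum.inl _) => none
  | Sum.inr (Sum.inr (i, j, _)) => some (Sum.inr (i.1, j.1))

/-- the rows -/
def rowI (q N : ℕ) (i : ℕ) : Elt q N :=
  if h : i < N then Sum.inl (0, ⟨i, h⟩) else Sum.inr (Sum.inl 0)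

lemma rowI_of_lt {i : ℕ} (h : i < N) : rowI q N i = Sum.inl (0, ⟨i, h⟩) := dif_pos h

section facts

variable {Γ : Type} {c : Fin q → Γ × Bool} {f : ℕ → ℕ → Γ}

lemma d1_iff (h : Good q κ N)
    (hκ : ∀ i j (hi : i < N) (hj : j < N), c ⟨κ i j, h.2 i j hi hj⟩ = (f i j, decide (i = j)))
    (a b : Elt q N) : D₁ c (ivo q κ N) a b ↔
      ∃ i : Fin N, a = Sum.inl (0, i) ∧ b = Sum.inl (1, i) := by
  constructor
  · rintro ⟨l, hl, hcol⟩
    obtain ⟨i, j, rfl, rfl, e⟩ := (col_iff h l a b).1 hcol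
    have e1 : l = ⟨κ i j, h.2 i j i.2 j.2⟩ := Fin.ext e
    rw [e1, hκ i j i.2 j.2] at hl
    have e2 : (i : ℕ) = j := by simpa using hl
    have e3 : i = j := Fin.ext e2
    subst e3
    exact ⟨i, rfl, rfl⟩
  · rintro ⟨i, rfl, rfl⟩
    refine ⟨⟨κ i i, h.2 i i i.2 i.2⟩, ?_, (col_iff h _ _ _).2 ⟨i, i, rfl, rfl, rfl⟩⟩
    rw [hκ i i i.2 i.2]
    simp

lemma d2_iff (h : Good q κ N)
    (hκ : ∀ i j (hi : i < N) (hj : j < N), c ⟨κ i j, h.2 i j hi hj⟩ = (f i j, decide (i = j)))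
    (b d : Elt q N) : D₂ c (ivo q κ N) b d ↔
      ∃ i : Fin N, b = Sum.inl (1, i) ∧ d = Sum.inl (2, i) := by
  constructor
  · rintro ⟨l, hl, hb, hd, hex⟩
    obtain ⟨j, rfl⟩ := (clm_iff h b).1 hb
    obtain ⟨i, rfl⟩ := (thd_iff h d).1 hd
    have e0 := (col₂_iff h l i j).1 hex
    have e1 : l = ⟨κ i j, h.2 i j i.2 j.2⟩ := by
      apply Fin.ext
      change (l : ℕ) = κ i j
      have h1 := l.2
      have h2 := h.2 i j i.2 j.2
      omega
    rw [e1, hκ i j i.2 j.2] at hl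
    have e2 : (i : ℕ) = j := by simpa using hl
    have e3 : i = j := Fin.ext e2
    subst e3
    exact ⟨i, rfl, rfl⟩
  · rintro ⟨i, rfl, rfl⟩
    refine ⟨⟨κ i i, h.2 i i i.2 i.2⟩, ?_, (clm_iff h _).2 ⟨i, rfl⟩, (thd_iff h _).2 ⟨i, rfl⟩,
      (col₂_iff h _ i i).2 rfl⟩
    rw [hκ i i i.2 i.2]
    simp

lemma o1_iff (h : Good q κ N)
    (hκ : ∀ i j (hi : i < N) (hj : j < N), c ⟨κ i j, h.2 i j hi hj⟩ = (f i j, decide (i = j)))
    (v a : Elt q N) : O₁ c (ivo q κ N) v a ↔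
      ∃ (s : Fin 3) (i : Fin N), v = Sum.inl (s, i) ∧ a = Sum.inl (0, i) := by
  constructor
  · rintro ⟨ha, h1⟩
    obtain ⟨i, rfl⟩ := (row_iff h a).1 ha
    rcases h1 with rfl | h1 | ⟨b, h1, h2⟩
    · exact ⟨0, i, rfl, rfl⟩
    · obtain ⟨j, e1, rfl⟩ := (d1_iff h hκ _ _).1 h1
      have e2 : i = j := by simpa using e1
      subst e2
      exact ⟨1, i, rfl, rfl⟩
    · obtain ⟨j, e1, rfl⟩ := (d1_iff h hκ _ _).1 h1
      have e2 : i = j := by simpa using e1
      subst e2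
      obtain ⟨j, e1, rfl⟩ := (d2_iff h hκ _ _).1 h2
      have e2 : i = j := by simpa using e1
      subst e2
      exact ⟨2, i, rfl, rfl⟩
  · rintro ⟨s, i, rfl, rfl⟩
    refine ⟨(row_iff h _).2 ⟨i, rfl⟩, ?_⟩
    fin_cases s
    · exact Or.inl rfl
    · exact Or.inr (Or.inl ((d1_iff h hκ _ _).2 ⟨i, rfl, rfl⟩))
    · exact Or.inr (Or.inr ⟨Sum.inl (1, i), (d1_iff h hκ _ _).2 ⟨i, rfl, rfl⟩,
        (d2_iff h hκ _ _).2 ⟨i, rfl, rfl⟩⟩)

lemma o2_iff (h : Good q κ N)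
    (hκ : ∀ i j (hi : i < N) (hj : j < N), c ⟨κ i j, h.2 i j hi hj⟩ = (f i j, decide (i = j)))
    (v a a' : Elt q N) : O₂ c (ivo q κ N) v a a' ↔
      ∃ (i j : Fin N) (k : Fin (q + 1)), v = Sum.inr (Sum.inr (i, j, k)) ∧ a = Sum.inl (0, i) ∧
        a' = Sum.inl (0, j) := by
  constructor
  · rintro ⟨ha, ha', b, hb, h1⟩
    obtain ⟨i, rfl⟩ := (row_iff h a).1 ha
    obtain ⟨j, rfl⟩ := (row_iff h a').1 ha'
    obtain ⟨j', e1, rfl⟩ := (d1_iff h hκ _ _).1 hb
    have e2 : j = j' := by simpa using e1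
    subst e2
    rcases h1 with h1 | ⟨b', d, h1, h2, h3⟩
    · obtain ⟨i', j', k, rfl, ⟨h4, h5, h6⟩ | ⟨h4, h5, h6⟩⟩ := (ivl_iff h _ _ _).1 h1
      · have e3 : i = i' := by simpa using h5
        have e4 : j = j' := by simpa using h6
        subst e3
        subst e4
        exact ⟨i, j, k, rfl, rfl, rfl⟩
      · simp at h5
    · obtain ⟨i', e1, rfl⟩ := (d1_iff h hκ _ _).1 h1
      have e2 : i = i' := by simpa using e1
      subst e2
      obtain ⟨i', e1, rfl⟩ := (d2_iff h hκ _ _).1 h2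
      have e2 : i = i' := by simpa using e1
      subst e2
      obtain ⟨i', j', k, rfl, ⟨h4, h5, h6⟩ | ⟨h4, h5, h6⟩⟩ := (ivl_iff h _ _ _).1 h3
      · simp at h5
      · have e3 : j = j' := by simpa using h5
        have e4 : i = i' := by simpa using h6
        subst e3
        subst e4
        exact ⟨i, j, k, rfl, rfl, rfl⟩
  · rintro ⟨i, j, k, rfl, rfl, rfl⟩
    refine ⟨(row_iff h _).2 ⟨i, rfl⟩, (row_iff h _).2 ⟨j, rfl⟩, Sum.inl (1, j),
      (d1_iff h hκ _ _).2 ⟨j, rfl, rfl⟩, ?_⟩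
    by_cases hk : k.1 ≤ κ i j
    · left
      exact (ivl_iff h _ _ _).2 ⟨i, j, k, rfl, Or.inl ⟨hk, rfl, rfl⟩⟩
    · right
      exact ⟨Sum.inl (1, i), Sum.inl (2, i), (d1_iff h hκ _ _).2 ⟨i, rfl, rfl⟩,
        (d2_iff h hκ _ _).2 ⟨i, rfl, rfl⟩,
        (ivl_iff h _ _ _).2 ⟨i, j, k, rfl, Or.inr ⟨not_le.1 hk, rfl, rfl⟩⟩⟩

lemma tt_iff (h : Good q κ N)
    (hκ : ∀ i j (hi : i < N) (hj : j < N), c ⟨κ i j, h.2 i j hi hj⟩ = (f i j, decide (i = j)))
    (i j : Fin N) (γ : Γ) : t c (ivo q κ N) (Sum.inl (0, i)) (Sum.inl (0, j)) γ ↔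
      γ = f i j := by
  constructor
  · rintro ⟨l, rfl, b, hb, hcol⟩
    obtain ⟨j', e1, rfl⟩ := (d1_iff h hκ _ _).1 hb
    have e2 : j = j' := by simpa using e1
    subst e2
    obtain ⟨i', j', e1, e2, e3⟩ := (col_iff h _ _ _).1 hcol
    have e4 : i = i' := by simpa using e1
    have e5 : j = j' := by simpa using e2
    subst e4
    subst e5
    have e6 : l = ⟨κ i j, h.2 i j i.2 j.2⟩ := Fin.ext e3
    rw [e6, hκ i j i.2 j.2]
  · rintro rfl
    refine ⟨⟨κ i j, h.2 i j i.2 j.2⟩, ?_, Sum.inl (1, j), (d1_iff h hκ _ _).2 ⟨j, rfl, rfl⟩,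
      (col_iff h _ _ _).2 ⟨i, j, rfl, rfl, rfl⟩⟩
    rw [hκ i j i.2 j.2]

end facts

theorem card_elt : Nat.card (Elt q N) = (q + 1) * N ^ 2 + 3 * N + 4 := by
  rw [Nat.card_eq_fintype_card]
  simp only [Fintype.card_sum, Fintype.card_prod, Fintype.card_fin]
  ring

theorem cond_ivo {Γ : Type} {W : Wang Γ} (c : Fin q → Γ × Bool) (h : Good q κ N)
    (f : ℕ → ℕ → Γ)
    (hf : (∀ x y, x + 1 < N → y < N → W.R (f x y) (f (x + 1) y)) ∧
      (∀ x y, x < N → y + 1 < N → W.U (f x y) (f x (y + 1))) ∧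
      (∀ y, y < N → W.l (f 0 y)) ∧ (∀ y, y < N → W.r (f (N - 1) y)) ∧
      (∀ x, x < N → W.b (f x 0)) ∧ (∀ x, x < N → W.t (f x (N - 1))) ∧ W.c (f 0 0))
    (hκ : ∀ i j (hi : i < N) (hj : j < N), c ⟨κ i j, h.2 i j hi hj⟩ = (f i j, decide (i = j))) :
    Cond c W (ivo q κ N) := by
  obtain ⟨h1, h2, h3, h4, h5, h6, h7⟩ := hf
  have key : SqStd W N f 3 (q + 1) 4 (Row (ivo q κ N)) (ivo q κ N 0) (t c (ivo q κ N))
      (O₁ c (ivo q κ N)) (O₂ c (ivo q κ N)) (Dbl (ivo q κ N)) (rowI q N) (ownI q N) := by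
    refine
      { hN := h.1
        tR := h1
        tU := h2
        tl := h3
        tr := h4
        tb := h5
        tt := h6
        tc := h7
        inj := ?_
        I_iff := ?_
        lt_iff := ?_
        t_iff := ?_
        O₁_iff := ?_
        O₂_iff := ?_
        own_ex := ?_
        own_some := ?_
        cnt₁ := ?_
        cnt₂ := ?_
        ext := ?_ }
    · intro i j hi hj e
      rw [rowI_of_lt hi, rowI_of_lt hj] at e
      simpa using e
    · intro x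
      rw [row_iff h]
      constructor
      · rintro ⟨i, rfl⟩
        exact ⟨i.1, i.2, (rowI_of_lt i.2).symm⟩
      · rintro ⟨i, hi, rfl⟩
        exact ⟨⟨i, hi⟩, rowI_of_lt hi⟩
    · intro i j h8 h9
      rw [rowI_of_lt h8, rowI_of_lt h9]
      simp [ivo, lo, hi]
    · intro i j γ hi hj
      rw [rowI_of_lt hi, rowI_of_lt hj]
      exact tt_iff h hκ ⟨i, hi⟩ ⟨j, hj⟩ γ
    · intro v x
      rw [o1_iff h hκ]
      constructor
      · rintro ⟨s, i, rfl, rfl⟩
        exact ⟨i.1, i.2, rfl, (rowI_of_lt i.2).symm⟩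
      · rintro ⟨i, hi, hv, rfl⟩
        rcases v with ⟨s, i'⟩ | d | ⟨i', j', k⟩
        · have e : (i' : ℕ) = i := by simpa [ownI] using hv
          subst e
          exact ⟨s, i', rfl, rowI_of_lt hi⟩
        · simp [ownI] at hv
        · simp [ownI] at hv
    · intro v x y
      rw [o2_iff h hκ]
      constructor
      · rintro ⟨i, j, k, rfl, rfl, rfl⟩
        exact ⟨i.1, j.1, i.2, j.2, rfl, (rowI_of_lt i.2).symm, (rowI_of_lt j.2).symm⟩
      · rintro ⟨i, j, hi, hj, hv, rfl, rfl⟩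
        rcases v with ⟨s, i'⟩ | d | ⟨i', j', k⟩
        · simp [ownI] at hv
        · simp [ownI] at hv
        · have e : (i' : ℕ) = i ∧ (j' : ℕ) = j := by simpa [ownI] using hv
          obtain ⟨e1, e2⟩ := e
          subst e1
          subst e2
          exact ⟨i', j', k, rfl, rowI_of_lt hi, rowI_of_lt hj⟩
    · intro v hv
      obtain ⟨d, rfl⟩ := (dbl_iff h v).1 hv
      rfl
    · intro v hv
      rcases v with ⟨s, i'⟩ | d | ⟨i', j', k⟩
      · exact Or.inl ⟨i'.1, i'.2, rfl⟩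
      · exact absurd ((dbl_iff h _).2 ⟨d, rfl⟩) hv
      · exact Or.inr ⟨i'.1, j'.1, i'.2, j'.2, rfl⟩
    · intro i hi
      have e : Nat.card {v : Elt q N // ownI q N v = some (Sum.inl i)} = Nat.card (Fin 3) := by
        refine (Nat.card_congr (Equiv.ofBijective
          (fun s : Fin 3 => (⟨Sum.inl (s, ⟨i, hi⟩), rfl⟩ :
            {v : Elt q N // ownI q N v = some (Sum.inl i)})) ⟨?_, ?_⟩)).symm
        · intro s s' e
          have e' := congrArg Subtype.val e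
          simpa using e'
        · rintro ⟨v, hv⟩
          rcases v with ⟨s, i'⟩ | d | ⟨i', j', k⟩
          · have e : (i' : ℕ) = i := by simpa [ownI] using hv
            subst e
            exact ⟨s, rfl⟩
          · simp [ownI] at hv
          · simp [ownI] at hv
      rw [e, Nat.card_eq_fintype_card, Fintype.card_fin]
    · intro i j hi hj
      have e : Nat.card {v : Elt q N // ownI q N v = some (Sum.inr (i, j))} =
          Nat.card (Fin (q + 1)) := by
        refine (Nat.card_congr (Equiv.ofBijective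
          (fun s : Fin (q + 1) => (⟨Sum.inr (Sum.inr (⟨i, hi⟩, ⟨j, hj⟩, s)), rfl⟩ :
            {v : Elt q N // ownI q N v = some (Sum.inr (i, j))})) ⟨?_, ?_⟩)).symm
        · intro s s' e
          have e' := congrArg Subtype.val e
          simpa using e'
        · rintro ⟨v, hv⟩
          rcases v with ⟨s, i'⟩ | d | ⟨i', j', k⟩
          · simp [ownI] at hv
          · simp [ownI] at hv
          · have e : (i' : ℕ) = i ∧ (j' : ℕ) = j := by simpa [ownI] using hv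
            obtain ⟨e1, e2⟩ := e
            subst e1
            subst e2
            exact ⟨k, rfl⟩
      rw [e, Nat.card_eq_fintype_card, Fintype.card_fin]
    · have e : Nat.card {v : Elt q N // Dbl (ivo q κ N) v} = Nat.card (Fin 4) := by
        refine (Nat.card_congr (Equiv.ofBijective
          (fun d : Fin 4 => (⟨Sum.inr (Sum.inl d), (dbl_iff h _).2 ⟨d, rfl⟩⟩ :
            {v : Elt q N // Dbl (ivo q κ N) v})) ⟨?_, ?_⟩)).symm
        · intro s s' e
          have e' := congrArg Subtype.val e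
          simpa using e'
        · rintro ⟨v, hv⟩
          obtain ⟨d, rfl⟩ := (dbl_iff h v).1 hv
          exact ⟨d, rfl⟩
      rw [e, Nat.card_eq_fintype_card, Fintype.card_fin]
  exact key.code

end Pool.Agent.Helper20.OP.I
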