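import Pool.Agent.Helper20.OP.SqEnc

/-!
# Interval orders: the relations (and block OP-I0: they are definable)

`R 0` is the strict order.  `Pt`: points (no two incomparable elements `z < w`, both incomparable to `x`).
`Dbl`: points with another point incomparable to them (the delimiters).  `Row`, `Clm`, `Thd`: the other points below,
between, above the delimiters.  `Lft x p`, `Rgt x p`: `p` is the least, the greatest point incomparable to `x`.
The intervals from the row `a` to the column `b`: exactly `κ + 1`, where `κ < q` is the colour of the pair.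
The intervals from the column `b` to the third `d`: exactly `q - κ`.  `c κ = (tile, diagonal?)`.
-/

set_option autoImplicit false

namespace Pool.Agent.Helper20.OP.I

open Pool.Agent.Helper29.Prefix

variable {V : Type}

/-- incomparable -/
def Inc (R : Str 1 V) (x y : V) : Prop := x ≠ y ∧ ¬ R 0 x y ∧ ¬ R 0 y x

def Pt (R : Str 1 V) (x : V) : Prop := ∀ z w, Inc R x z → Inc R x w → ¬ R 0 z w

def Dbl (R : Str 1 V) (x : V) : Prop := Pt R x ∧ ∃ y, Pt R y ∧ Inc R x y

def Row (R : Str 1 V) (x : V) : Prop := Pt R x ∧ ¬ Dbl R x ∧ ∀ y, Dbl R y → R 0 x y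

def Clm (R : Str 1 V) (x : V) : Prop :=
  Pt R x ∧ ¬ Dbl R x ∧ (∃ y, Dbl R y ∧ R 0 y x) ∧ ∃ y, Dbl R y ∧ R 0 x y

def Thd (R : Str 1 V) (x : V) : Prop := Pt R x ∧ ¬ Dbl R x ∧ ∀ y, Dbl R y → R 0 y x

/-- `p` is the least point incomparable to `x` -/
def Lft (R : Str 1 V) (x p : V) : Prop :=
  Pt R p ∧ Inc R x p ∧ ∀ p', Pt R p' → Inc R x p' → p' = p ∨ R 0 p p'

/-- `p` is the greatest point incomparable to `x` -/
def Rgt (R : Str 1 V) (x p : V) : Prop :=
  Pt R p ∧ Inc R x p ∧ ∀ p', Pt R p' → Inc R x p' → p' = p ∨ R 0 p' p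

/-- `x` is an interval from the point `a` to the point `b` -/
def Ivl (R : Str 1 V) (x a b : V) : Prop := ¬ Pt R x ∧ Lft R x a ∧ Rgt R x b

/-- the pair of the row `a` and the column `b` has the colour `κ` -/
def Col (R : Str 1 V) (κ : ℕ) (a b : V) : Prop :=
  Row R a ∧ Clm R b ∧ Exactly (κ + 1) (fun x => Ivl R x a b)

variable {Γ : Type} {q : ℕ} (c : Fin q → Γ × Bool)

/-- the row `a` and the column `b` have the same number -/
def D₁ (R : Str 1 V) (a b : V) : Prop := ∃ κ : Fin q, (c κ).2 = true ∧ Col R κ a b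

/-- the column `b` and the third `d` have the same number -/
def D₂ (R : Str 1 V) (b d : V) : Prop :=
  ∃ κ : Fin q, (c κ).2 = true ∧ Clm R b ∧ Thd R d ∧ Exactly (q - κ) (fun x => Ivl R x b d)

/-- the tile of a pair of rows -/
def t (R : Str 1 V) (a a' : V) (γ : Γ) : Prop :=
  ∃ κ : Fin q, (c κ).1 = γ ∧ ∃ b, D₁ c R a' b ∧ Col R κ a b

def O₁ (R : Str 1 V) (v a : V) : Prop :=
  Row R a ∧ (v = a ∨ D₁ c R a v ∨ ∃ b, D₁ c R a b ∧ D₂ c R b v)

def O₂ (R : Str 1 V) (v a a' : V) : Prop :=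
  Row R a ∧ Row R a' ∧ ∃ b, D₁ c R a' b ∧ (Ivl R v a b ∨
    ∃ b' d, D₁ c R a b' ∧ D₂ c R b' d ∧ Ivl R v b d)

/-- the condition on a poset -/
def Cond (W : Wang Γ) (R : Str 1 V) : Prop :=
  SqCode W 3 (q + 1) 4 (Row R) (R 0) (t c R) (O₁ c R) (O₂ c R) (Dbl R)

private lemma def_Inc : Def2 1 (fun _ R x y => Inc R x y) :=
  Def.and (Def.eq _ _).not (Def.and (Def.rel _ _ _).not (Def.rel _ _ _).not)

private lemma def_Pt : Def1 1 (fun _ R x => Pt R x) :=
  Def.all (Def.all (Def.imp (def_Inc.app _ _) (Def.imp (def_Inc.app _ _) (Def.rel _ _ _).not)))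

private lemma def_Dbl : Def1 1 (fun _ R x => Dbl R x) :=
  Def.and (def_Pt.app _) (Def.ex (Def.and (def_Pt.app _) (def_Inc.app _ _)))

private lemma def_Row : Def1 1 (fun _ R x => Row R x) :=
  Def.and (def_Pt.app _) (Def.and (def_Dbl.app _).not
    (Def.all (Def.imp (def_Dbl.app _) (Def.rel _ _ _))))

private lemma def_Clm : Def1 1 (fun _ R x => Clm R x) :=
  Def.and (def_Pt.app _) (Def.and (def_Dbl.app _).not
    (Def.and (Def.ex (Def.and (def_Dbl.app _) (Def.rel _ _ _)))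
      (Def.ex (Def.and (def_Dbl.app _) (Def.rel _ _ _)))))

private lemma def_Thd : Def1 1 (fun _ R x => Thd R x) :=
  Def.and (def_Pt.app _) (Def.and (def_Dbl.app _).not
    (Def.all (Def.imp (def_Dbl.app _) (Def.rel _ _ _))))

private lemma def_Lft : Def2 1 (fun _ R x p => Lft R x p) :=
  Def.and (def_Pt.app _) (Def.and (def_Inc.app _ _)
    (Def.all (Def.imp (def_Pt.app _) (Def.imp (def_Inc.app _ _)
      (Def.or (Def.eq _ _) (Def.rel _ _ _))))))

private lemma def_Rgt : Def2 1 (fun _ R x p => Rgt R x p) :=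
  Def.and (def_Pt.app _) (Def.and (def_Inc.app _ _)
    (Def.all (Def.imp (def_Pt.app _) (Def.imp (def_Inc.app _ _)
      (Def.or (Def.eq _ _) (Def.rel _ _ _))))))

private lemma def_Ivl : Def3 1 (fun _ R x a b => Ivl R x a b) :=
  Def.and (def_Pt.app _).not (Def.and (def_Lft.app _ _) (def_Rgt.app _ _))

private lemma def_Col (κ : ℕ) : Def2 1 (fun _ R a b => Col R κ a b) :=
  Def.and (def_Row.app _) (Def.and (def_Clm.app _) (Def.exactly (κ + 1) (def_Ivl.app _ _ _)))

private lemma def_D₁ : Def2 1 (fun _ R a b => D₁ c R a b) :=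
  Def.ex_fin (fun κ => Def.and (Def.const _) ((def_Col κ).app _ _))

private lemma def_D₂ : Def2 1 (fun _ R b d => D₂ c R b d) :=
  Def.ex_fin (fun κ => Def.and (Def.const _) (Def.and (def_Clm.app _) (Def.and (def_Thd.app _)
    (Def.exactly (q - κ.1) (def_Ivl.app _ _ _)))))

private lemma def_t (γ : Γ) : Def2 1 (fun _ R a a' => t c R a a' γ) :=
  Def.ex_fin (fun κ => Def.and (Def.const _) (Def.ex (Def.and ((def_D₁ c).app _ _)
    ((def_Col κ).app _ _))))

private lemma def_O₁ : Def2 1 (fun _ R v a => O₁ c R v a) :=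
  Def.and (def_Row.app _) (Def.or (Def.eq _ _) (Def.or ((def_D₁ c).app _ _)
    (Def.ex (Def.and ((def_D₁ c).app _ _) ((def_D₂ c).app _ _)))))

private lemma def_O₂ : Def3 1 (fun _ R v a a' => O₂ c R v a a') :=
  Def.and (def_Row.app _) (Def.and (def_Row.app _) (Def.ex (Def.and ((def_D₁ c).app _ _)
    (Def.or (def_Ivl.app _ _ _) (Def.ex (Def.ex (Def.and ((def_D₁ c).app _ _)
      (Def.and ((def_D₂ c).app _ _) (def_Ivl.app _ _ _)))))))))

theorem def_cond [Finite Γ] (W : Wang Γ) : Def0 1 (fun _ R => Cond c W R) :=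
  def_sqCode W 3 (q + 1) 4 def_Row (Def.rel 0 0 1) (def_t c) (def_O₁ c) (def_O₂ c) def_Dbl

end Pool.Agent.Helper20.OP.I
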