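import Pool.Agent.Helper20.OP.I.Types

/-!
# Block OP-I3: the intervals of the model

`ivl_iff`: for `k ≤ κ i j` the interval is `[i, N + 1 + j]`: the least point is row `i`, the greatest column `j`; the
points which are delimiters are not least or greatest (each has a twin).  For `k > κ i j`: `[N + 1 + j, 2 N + 2 + i]`.
`col_iff`: the intervals from row `i` to column `j` are the `(i, j, k)` with `k ≤ κ i j`: `κ i j + 1` (as `κ i j < q`);
`col₂_iff`: those from column `j` to third `i` are the `(i, j, k)` with `κ i j < k ≤ q`: `q - κ i j`.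
-/

set_option autoImplicit false

namespace Pool.Agent.Helper20.OP.I

variable {q : ℕ} {κ : ℕ → ℕ → ℕ} {N : ℕ}

private lemma inc_iff67 (x y : Elt q N) : Inc (ivo q κ N) x y ↔
    x ≠ y ∧ lo q κ N y ≤ hi q κ N x ∧ lo q κ N x ≤ hi q κ N y := by
  unfold Inc ivo
  rw [not_lt, not_lt]

private lemma hi_pt67 (p : Elt q N) (hp : (∃ s, p = Sum.inl s) ∨ ∃ d, p = Sum.inr (Sum.inl d)) :
    hi q κ N p = lo q κ N p := by
  rcases hp with ⟨⟨s, i⟩, rfl⟩ | ⟨d, rfl⟩
  · rfl
  · rfl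

private lemma uniq67 (s : Fin 3) (i : Fin N) (p : Elt q N)
    (hp : (∃ s, p = Sum.inl s) ∨ ∃ d, p = Sum.inr (Sum.inl d))
    (h : lo q κ N p = (N + 1) * s.1 + i.1) : p = Sum.inl (s, i) := by
  have hi0 := i.2
  rcases hp with ⟨⟨s', i'⟩, rfl⟩ | ⟨d, rfl⟩
  · have hi1 := i'.2
    have h' : (N + 1) * s'.1 + i'.1 = (N + 1) * s.1 + i.1 := h
    have h1 : s'.1 = s.1 ∧ i'.1 = i.1 := by
      have e1 : s'.1 < 3 := s'.2
      have e2 : s.1 < 3 := s.2
      generalize s'.1 = a at *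
      generalize s.1 = b at *
      interval_cases a <;> interval_cases b <;> omega
    rw [Fin.ext h1.1, Fin.ext h1.2]
  · exfalso
    simp only [lo] at h
    have e2 : s.1 < 3 := s.2
    generalize s.1 = b at *
    interval_cases b <;> split_ifs at h <;> omega

/-- The least point of an interval with the left end at a point of the grid. -/
private lemma lft_iff67 (h : Good q κ N) (x a : Elt q N) (hx : ∀ s i, x ≠ Sum.inl (s, i))
    (s : Fin 3) (i : Fin N) (hlo : lo q κ N x = (N + 1) * s.1 + i.1)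
    (hle : lo q κ N x ≤ hi q κ N x) : Lft (ivo q κ N) x a ↔ a = Sum.inl (s, i) := by
  have hinc : Inc (ivo q κ N) x (Sum.inl (s, i)) := by
    rw [inc_iff67]
    refine ⟨hx s i, ?_, ?_⟩
    · change (N + 1) * s.1 + i.1 ≤ _
      omega
    · change _ ≤ (N + 1) * s.1 + i.1
      omega
  constructor
  · rintro ⟨h1, h2, h3⟩
    rcases h3 _ ((pt_iff h _).mpr (Or.inl ⟨_, rfl⟩)) hinc with h4 | h4
    · exact h4.symm
    · exfalso
      rw [inc_iff67] at h2
      have h5 : hi q κ N a < (N + 1) * s.1 + i.1 := h4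
      omega
  · rintro rfl
    refine ⟨(pt_iff h _).mpr (Or.inl ⟨_, rfl⟩), hinc, fun p' hp' hi' => ?_⟩
    rw [pt_iff h] at hp'
    rw [inc_iff67] at hi'
    by_cases h5 : lo q κ N p' = (N + 1) * s.1 + i.1
    · exact Or.inl (uniq67 s i p' hp' h5)
    · right
      change (N + 1) * s.1 + i.1 < lo q κ N p'
      have := hi_pt67 (κ := κ) p' hp'
      omega

/-- The greatest point of an interval with the right end at a point of the grid. -/
private lemma rgt_iff67 (h : Good q κ N) (x a : Elt q N) (hx : ∀ s i, x ≠ Sum.inl (s, i))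
    (s : Fin 3) (i : Fin N) (hhi : hi q κ N x = (N + 1) * s.1 + i.1)
    (hle : lo q κ N x ≤ hi q κ N x) : Rgt (ivo q κ N) x a ↔ a = Sum.inl (s, i) := by
  have hinc : Inc (ivo q κ N) x (Sum.inl (s, i)) := by
    rw [inc_iff67]
    refine ⟨hx s i, ?_, ?_⟩
    · change (N + 1) * s.1 + i.1 ≤ _
      omega
    · change _ ≤ (N + 1) * s.1 + i.1
      omega
  constructor
  · rintro ⟨h1, h2, h3⟩
    rcases h3 _ ((pt_iff h _).mpr (Or.inl ⟨_, rfl⟩)) hinc with h4 | h4
    · exact h4.symm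
    · exfalso
      rw [inc_iff67] at h2
      have h5 : (N + 1) * s.1 + i.1 < lo q κ N a := h4
      omega
  · rintro rfl
    refine ⟨(pt_iff h _).mpr (Or.inl ⟨_, rfl⟩), hinc, fun p' hp' hi' => ?_⟩
    rw [pt_iff h] at hp'
    rw [inc_iff67] at hi'
    by_cases h5 : lo q κ N p' = (N + 1) * s.1 + i.1
    · exact Or.inl (uniq67 s i p' hp' h5)
    · right
      change hi q κ N p' < (N + 1) * s.1 + i.1
      have := hi_pt67 (κ := κ) p' hp'
      omega

private lemma notPt67 (h : Good q κ N) (y : Fin N × Fin N × Fin (q + 1)) :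
    ¬ Pt (ivo q κ N) (Sum.inr (Sum.inr y) : Elt q N) := by
  rw [pt_iff h]
  rintro (⟨s, hs⟩ | ⟨d, hd⟩)
  · exact absurd hs (by simp)
  · exact absurd hd (by simp)

private lemma ivl_low67 (h : Good q κ N) (i j : Fin N) (k : Fin (q + 1)) (hk : k.1 ≤ κ i j)
    (a b : Elt q N) : Ivl (ivo q κ N) (Sum.inr (Sum.inr (i, j, k))) a b ↔
      a = Sum.inl (0, i) ∧ b = Sum.inl (1, j) := by
  have hi0 := i.2
  have hj0 := j.2
  have e1 : lo q κ N (Sum.inr (Sum.inr (i, j, k))) = i.1 := by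
    simp only [lo]
    rw [if_pos hk]
  have e2 : hi q κ N (Sum.inr (Sum.inr (i, j, k))) = N + 1 + j.1 := by
    simp only [hi]
    rw [if_pos hk]
  have hx : ∀ s i', (Sum.inr (Sum.inr (i, j, k)) : Elt q N) ≠ Sum.inl (s, i') := by
    intro s i'
    simp
  have z0 : ((0 : Fin 3) : ℕ) = 0 := rfl
  have z1 : ((1 : Fin 3) : ℕ) = 1 := rfl
  unfold Ivl
  rw [lft_iff67 h _ a hx 0 i (by rw [e1, z0]; omega) (by rw [e1, e2]; omega),
    rgt_iff67 h _ b hx 1 j (by rw [e2, z1]; omega) (by rw [e1, e2]; omega)]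
  exact ⟨fun h => h.2, fun h' => ⟨notPt67 h _, h'⟩⟩

private lemma ivl_high67 (h : Good q κ N) (i j : Fin N) (k : Fin (q + 1)) (hk : κ i j < k.1)
    (a b : Elt q N) : Ivl (ivo q κ N) (Sum.inr (Sum.inr (i, j, k))) a b ↔
      a = Sum.inl (1, j) ∧ b = Sum.inl (2, i) := by
  have hi0 := i.2
  have hj0 := j.2
  have e1 : lo q κ N (Sum.inr (Sum.inr (i, j, k))) = N + 1 + j.1 := by
    simp only [lo]
    rw [if_neg (by omega)]
  have e2 : hi q κ N (Sum.inr (Sum.inr (i, j, k))) = 2 * N + 2 + i.1 := by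
    simp only [hi]
    rw [if_neg (by omega)]
  have hx : ∀ s i', (Sum.inr (Sum.inr (i, j, k)) : Elt q N) ≠ Sum.inl (s, i') := by
    intro s i'
    simp
  have z1 : ((1 : Fin 3) : ℕ) = 1 := rfl
  have z2 : ((2 : Fin 3) : ℕ) = 2 := rfl
  unfold Ivl
  rw [lft_iff67 h _ a hx 1 j (by rw [e1, z1]; omega) (by rw [e1, e2]; omega),
    rgt_iff67 h _ b hx 2 i (by rw [e2, z2]; omega) (by rw [e1, e2]; omega)]
  exact ⟨fun h => h.2, fun h' => ⟨notPt67 h _, h'⟩⟩

private lemma exactly_unique67 {V : Type} [Finite V] {c c' : ℕ} {P : V → Prop}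
    (h : Exactly c P) (h' : Exactly c' P) : c = c' := by
  rw [exactly_iff] at h h'
  exact h.symm.trans h'

theorem ivl_iff (h : Good q κ N) (x a b : Elt q N) : Ivl (ivo q κ N) x a b ↔
    ∃ i j k, x = Sum.inr (Sum.inr (i, j, k)) ∧
      ((k.1 ≤ κ i j ∧ a = Sum.inl (0, i) ∧ b = Sum.inl (1, j)) ∨
        (κ i j < k.1 ∧ a = Sum.inl (1, j) ∧ b = Sum.inl (2, i))) := by
  constructor
  · rintro ⟨h1, h2, h3⟩
    rcases x with s | d | ⟨i, j, k⟩
    · exact absurd ((pt_iff h _).mpr (Or.inl ⟨_, rfl⟩)) h1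
    · exact absurd ((pt_iff h _).mpr (Or.inr ⟨_, rfl⟩)) h1
    · refine ⟨i, j, k, rfl, ?_⟩
      rcases le_or_gt k.1 (κ i j) with hk | hk
      · exact Or.inl ⟨hk, (ivl_low67 h i j k hk a b).mp ⟨h1, h2, h3⟩⟩
      · exact Or.inr ⟨hk, (ivl_high67 h i j k hk a b).mp ⟨h1, h2, h3⟩⟩
  · rintro ⟨i, j, k, rfl, ⟨hk, h1⟩ | ⟨hk, h1⟩⟩
    · exact (ivl_low67 h i j k hk a b).mpr h1
    · exact (ivl_high67 h i j k hk a b).mpr h1

/-- The intervals from the row `i` to the column `j`. -/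
private lemma exactly_low67 (h : Good q κ N) (i j : Fin N) :
    Exactly (κ i j + 1) (fun x => Ivl (ivo q κ N) x (Sum.inl (0, i)) (Sum.inl (1, j))) := by
  have hq := h.2 i j i.2 j.2
  refine ⟨fun m => Sum.inr (Sum.inr (i, j, ⟨m.1, by omega⟩)), ?_, ?_⟩
  · intro m m' hm
    simp only [Sum.inr.injEq, Prod.mk.injEq, Fin.mk.injEq, true_and] at hm
    exact Fin.ext hm
  · intro x
    refine (ivl_iff h x _ _).trans ?_
    constructor
    · rintro ⟨i', j', k, rfl, ⟨hk, h1, h2⟩ | ⟨hk, h1, h2⟩⟩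
      · simp only [Sum.inl.injEq, Prod.mk.injEq, true_and] at h1 h2
        subst h1
        subst h2
        exact ⟨⟨k.1, by omega⟩, rfl⟩
      · simp at h1
    · rintro ⟨m, rfl⟩
      exact ⟨i, j, _, rfl, Or.inl ⟨by have := m.2; change m.1 ≤ _; omega, rfl, rfl⟩⟩

/-- The intervals from the column `j` to the third `i`. -/
private lemma exactly_high67 (h : Good q κ N) (i j : Fin N) :
    Exactly (q - κ i j) (fun x => Ivl (ivo q κ N) x (Sum.inl (1, j)) (Sum.inl (2, i))) := by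
  have hq := h.2 i j i.2 j.2
  refine ⟨fun m => Sum.inr (Sum.inr (i, j, ⟨κ i j + 1 + m.1, by have := m.2; omega⟩)), ?_, ?_⟩
  · intro m m' hm
    simp only [Sum.inr.injEq, Prod.mk.injEq, Fin.mk.injEq, true_and] at hm
    exact Fin.ext (by omega)
  · intro x
    refine (ivl_iff h x _ _).trans ?_
    constructor
    · rintro ⟨i', j', k, rfl, ⟨hk, h1, h2⟩ | ⟨hk, h1, h2⟩⟩
      · simp at h1
      · simp only [Sum.inl.injEq, Prod.mk.injEq, true_and] at h1 h2
        subst h1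
        subst h2
        have := k.2
        refine ⟨⟨k.1 - (κ i j + 1), by omega⟩, ?_⟩
        simp only [Sum.inr.injEq, Prod.mk.injEq, true_and]
        apply Fin.ext
        change κ i j + 1 + (k.1 - (κ i j + 1)) = k.1
        omega
    · rintro ⟨m, rfl⟩
      exact ⟨i, j, _, rfl, Or.inr ⟨by change _ < κ i j + 1 + m.1; omega, rfl, rfl⟩⟩

theorem col_iff (h : Good q κ N) (l : ℕ) (a b : Elt q N) : Col (ivo q κ N) l a b ↔
    ∃ i j, a = Sum.inl (0, i) ∧ b = Sum.inl (1, j) ∧ l = κ i j := by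
  constructor
  · rintro ⟨h1, h2, h3⟩
    obtain ⟨i, rfl⟩ := (row_iff h a).mp h1
    obtain ⟨j, rfl⟩ := (clm_iff h b).mp h2
    refine ⟨i, j, rfl, rfl, ?_⟩
    have := exactly_unique67 h3 (exactly_low67 h i j)
    omega
  · rintro ⟨i, j, rfl, rfl, rfl⟩
    exact ⟨(row_iff h _).mpr ⟨i, rfl⟩, (clm_iff h _).mpr ⟨j, rfl⟩, exactly_low67 h i j⟩

theorem col₂_iff (h : Good q κ N) (l : ℕ) (i j : Fin N) :
    Exactly (q - l) (fun x => Ivl (ivo q κ N) x (Sum.inl (1, j)) (Sum.inl (2, i))) ↔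
      q - l = q - κ i j := by
  constructor
  · intro h1
    exact exactly_unique67 h1 (exactly_high67 h i j)
  · intro h1
    rw [h1]
    exact exactly_high67 h i j

end Pool.Agent.Helper20.OP.I
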