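import Pool.Agent.Helper20.OP.I.Model

/-!
# Block OP-I1: points, rows, columns, thirds and intervals of the model

Two different elements are incomparable iff their intervals `[lo, hi]` meet.  The points and delimiters have
`lo = hi` (a position); the intervals meeting a position all contain it, so any two of them meet: they are `Pt`.  The interval
of `(i, j, k)` with `k ≤ κ i j` meets row `i` and column `j`, and row `i` < column `j`: not `Pt`; similarly for `k > κ i j`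
(column `j` < third `i`).  `Dbl`: two different points are incomparable iff they are the two delimiters at the same position.
`Row`, `Clm`, `Thd`: compare positions with `N` and `2 N + 1`.
-/

set_option autoImplicit false

namespace Pool.Agent.Helper20.OP.I

variable {q : ℕ} {κ : ℕ → ℕ → ℕ} {N : ℕ}

lemma inc_iff (x y : Elt q N) : Inc (ivo q κ N) x y ↔
    x ≠ y ∧ lo q κ N y ≤ hi q κ N x ∧ lo q κ N x ≤ hi q κ N y := by
  simp only [Inc, ivo, not_lt]

theorem pt_iff (h : Good q κ N) (x : Elt q N) : Pt (ivo q κ N) x ↔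
    (∃ s, x = Sum.inl s) ∨ ∃ d, x = Sum.inr (Sum.inl d) := by
  have hpt : lo q κ N x = hi q κ N x → Pt (ivo q κ N) x := by
    intro e z w hz hw hzw
    rw [inc_iff] at hz hw
    have h1 : hi q κ N z < lo q κ N w := hzw
    omega
  constructor
  · intro hx
    rcases x with s | d | ⟨i, j, k⟩
    · exact Or.inl ⟨s, rfl⟩
    · exact Or.inr ⟨d, rfl⟩
    · exfalso
      have hi' := i.2
      have hj' := j.2
      by_cases hk : k.1 ≤ κ i j
      · refine hx (Sum.inl (0, i)) (Sum.inl (1, j)) ?_ ?_ ?_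
        · rw [inc_iff]
          simp only [lo, hi, if_pos hk]
          refine ⟨by simp, ?_, ?_⟩ <;> simp <;> omega
        · rw [inc_iff]
          simp only [lo, hi, if_pos hk]
          refine ⟨by simp, ?_, ?_⟩ <;> simp <;> omega
        · show hi q κ N _ < lo q κ N _
          simp only [lo, hi]
          simp
          omega
      · refine hx (Sum.inl (1, j)) (Sum.inl (2, i)) ?_ ?_ ?_
        · rw [inc_iff]
          simp only [lo, hi, if_neg hk]
          refine ⟨by simp, ?_, ?_⟩ <;> simp <;> omega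
        · rw [inc_iff]
          simp only [lo, hi, if_neg hk]
          refine ⟨by simp, ?_, ?_⟩ <;> simp <;> omega
        · show hi q κ N _ < lo q κ N _
          simp only [lo, hi]
          simp
          omega
  · rintro (⟨s, rfl⟩ | ⟨d, rfl⟩)
    · exact hpt rfl
    · exact hpt rfl

/-- the positions of the points -/
lemma lo_pt (s : Fin 3) (i : Fin N) : lo q κ N (Sum.inl (s, i)) = (N + 1) * s.1 + i.1 := rfl

lemma hi_pt (s : Fin 3) (i : Fin N) : hi q κ N (Sum.inl (s, i)) = (N + 1) * s.1 + i.1 := rfl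

lemma lo_dl (d : Fin 4) : lo q κ N (Sum.inr (Sum.inl d)) = if d.1 < 2 then N else 2 * N + 1 := rfl

lemma hi_dl (d : Fin 4) : hi q κ N (Sum.inr (Sum.inl d)) = if d.1 < 2 then N else 2 * N + 1 := rfl

theorem dbl_iff (h : Good q κ N) (x : Elt q N) : Dbl (ivo q κ N) x ↔
    ∃ d, x = Sum.inr (Sum.inl d) := by
  constructor
  · rintro ⟨hx, y, hy, hxy⟩
    rw [inc_iff] at hxy
    obtain ⟨hne, h1, h2⟩ := hxy
    rcases (pt_iff h x).1 hx with ⟨⟨s, i⟩, rfl⟩ | ⟨d, rfl⟩
    · exfalso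
      have hi' := i.2
      rcases (pt_iff h y).1 hy with ⟨⟨s', i'⟩, rfl⟩ | ⟨d, rfl⟩
      · have hi2 := i'.2
        rw [lo_pt, hi_pt] at h1 h2
        apply hne
        have h3 : (N + 1) * s.1 + i.1 = (N + 1) * s'.1 + i'.1 := by omega
        have h4 : s.1 = s'.1 := by
          have h5 : ((N + 1) * s.1 + i.1) / (N + 1) = s.1 := by
            rw [Nat.mul_add_div (by omega), Nat.div_eq_of_lt (by omega), add_zero]
          have h6 : ((N + 1) * s'.1 + i'.1) / (N + 1) = s'.1 := by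
            rw [Nat.mul_add_div (by omega), Nat.div_eq_of_lt (by omega), add_zero]
          rw [← h5, ← h6, h3]
        have h5 : i.1 = i'.1 := by
          rw [h4] at h3
          omega
        rw [Fin.ext h4, Fin.ext h5]
      · rw [lo_pt, hi_dl] at h2
        rw [lo_dl, hi_pt] at h1
        obtain ⟨s, hs⟩ := s
        have : s = 0 ∨ s = 1 ∨ s = 2 := by omega
        rcases this with rfl | rfl | rfl <;> split_ifs at h1 h2 <;> simp at h1 h2 <;> omega
    · exact ⟨d, rfl⟩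
  · rintro ⟨d, rfl⟩
    refine ⟨(pt_iff h _).2 (Or.inr ⟨d, rfl⟩), ?_⟩
    have key : ∀ d' : Fin 4, d ≠ d' → (d.1 < 2 ↔ d'.1 < 2) →
        ∃ y, Pt (ivo q κ N) y ∧ Inc (ivo q κ N) (Sum.inr (Sum.inl d)) y := by
      intro d' hd hd'
      refine ⟨Sum.inr (Sum.inl d'), (pt_iff h _).2 (Or.inr ⟨d', rfl⟩), ?_⟩
      rw [inc_iff, lo_dl, hi_dl, lo_dl, hi_dl]
      refine ⟨fun e => hd (Sum.inl.inj (Sum.inr.inj e)), ?_, ?_⟩ <;> split_ifs <;> omega
    have hd : d = 0 ∨ d = 1 ∨ d = 2 ∨ d = 3 := by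
      obtain ⟨d, hd⟩ := d
      simp only [Fin.ext_iff]
      simp
      omega
    rcases hd with rfl | rfl | rfl | rfl
    · exact key 1 (by decide) (by decide)
    · exact key 0 (by decide) (by decide)
    · exact key 3 (by decide) (by decide)
    · exact key 2 (by decide) (by decide)

/-- a point which is not a delimiter -/
lemma pt_not_dbl (h : Good q κ N) (x : Elt q N) : (Pt (ivo q κ N) x ∧ ¬ Dbl (ivo q κ N) x) ↔
    ∃ s i, x = Sum.inl (s, i) := by
  rw [pt_iff h, dbl_iff h]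
  constructor
  · rintro ⟨⟨⟨s, i⟩, rfl⟩ | ⟨d, rfl⟩, h2⟩
    · exact ⟨s, i, rfl⟩
    · exact absurd ⟨d, rfl⟩ h2
  · rintro ⟨s, i, rfl⟩
    exact ⟨Or.inl ⟨_, rfl⟩, by simp⟩

theorem row_iff (h : Good q κ N) (x : Elt q N) : Row (ivo q κ N) x ↔
    ∃ i, x = Sum.inl (0, i) := by
  constructor
  · rintro ⟨h1, h2, h3⟩
    obtain ⟨s, i, rfl⟩ := (pt_not_dbl h x).1 ⟨h1, h2⟩
    have h4 : hi q κ N (Sum.inl (s, i)) < lo q κ N (Sum.inr (Sum.inl 0)) :=
      h3 _ ((dbl_iff h _).2 ⟨0, rfl⟩)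
    rw [hi_pt, lo_dl] at h4
    refine ⟨i, ?_⟩
    obtain ⟨s, hs⟩ := s
    have : s = 0 ∨ s = 1 ∨ s = 2 := by omega
    rcases this with rfl | rfl | rfl
    · rfl
    · simp at h4; omega
    · simp at h4; omega
  · rintro ⟨i, rfl⟩
    have h1 := (pt_not_dbl (κ := κ) h (Sum.inl (0, i))).2 ⟨0, i, rfl⟩
    refine ⟨h1.1, h1.2, fun y hy => ?_⟩
    obtain ⟨d, rfl⟩ := (dbl_iff h y).1 hy
    show hi q κ N _ < lo q κ N _
    rw [hi_pt, lo_dl]
    have := i.2
    split_ifs <;> simp <;> omega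

theorem clm_iff (h : Good q κ N) (x : Elt q N) : Clm (ivo q κ N) x ↔
    ∃ i, x = Sum.inl (1, i) := by
  constructor
  · rintro ⟨h1, h2, ⟨y, hy, h3⟩, ⟨z, hz, h4⟩⟩
    obtain ⟨s, i, rfl⟩ := (pt_not_dbl h x).1 ⟨h1, h2⟩
    obtain ⟨d, rfl⟩ := (dbl_iff h y).1 hy
    obtain ⟨d', rfl⟩ := (dbl_iff h z).1 hz
    have h5 : hi q κ N (Sum.inr (Sum.inl d)) < lo q κ N (Sum.inl (s, i)) := h3
    have h6 : hi q κ N (Sum.inl (s, i)) < lo q κ N (Sum.inr (Sum.inl d')) := h4
    rw [hi_dl, lo_pt] at h5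
    rw [hi_pt, lo_dl] at h6
    refine ⟨i, ?_⟩
    have hi' := i.2
    obtain ⟨s, hs⟩ := s
    have : s = 0 ∨ s = 1 ∨ s = 2 := by omega
    rcases this with rfl | rfl | rfl
    · exfalso
      split_ifs at h5 h6 <;> simp at h5 h6 <;> omega
    · rfl
    · exfalso
      split_ifs at h5 h6 <;> simp at h5 h6 <;> omega
  · rintro ⟨i, rfl⟩
    have h1 := (pt_not_dbl (κ := κ) h (Sum.inl (1, i))).2 ⟨1, i, rfl⟩
    have hi' := i.2
    refine ⟨h1.1, h1.2, ⟨_, (dbl_iff h _).2 ⟨0, rfl⟩, ?_⟩, ⟨_, (dbl_iff h _).2 ⟨2, rfl⟩, ?_⟩⟩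
    · show hi q κ N _ < lo q κ N _
      rw [hi_dl, lo_pt]
      simp
      omega
    · show hi q κ N _ < lo q κ N _
      rw [hi_pt, lo_dl]
      simp
      omega

theorem thd_iff (h : Good q κ N) (x : Elt q N) : Thd (ivo q κ N) x ↔
    ∃ i, x = Sum.inl (2, i) := by
  constructor
  · rintro ⟨h1, h2, h3⟩
    obtain ⟨s, i, rfl⟩ := (pt_not_dbl h x).1 ⟨h1, h2⟩
    have h4 : hi q κ N (Sum.inr (Sum.inl 2)) < lo q κ N (Sum.inl (s, i)) :=
      h3 _ ((dbl_iff h _).2 ⟨2, rfl⟩)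
    rw [hi_dl, lo_pt] at h4
    refine ⟨i, ?_⟩
    have hi' := i.2
    obtain ⟨s, hs⟩ := s
    have : s = 0 ∨ s = 1 ∨ s = 2 := by omega
    rcases this with rfl | rfl | rfl
    · simp at h4; omega
    · simp at h4; omega
    · rfl
  · rintro ⟨i, rfl⟩
    have h1 := (pt_not_dbl (κ := κ) h (Sum.inl (2, i))).2 ⟨2, i, rfl⟩
    refine ⟨h1.1, h1.2, fun y hy => ?_⟩
    obtain ⟨d, rfl⟩ := (dbl_iff h y).1 hy
    show hi q κ N _ < lo q κ N _
    rw [hi_dl, lo_pt]
    split_ifs <;> simp <;> omega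

end Pool.Agent.Helper20.OP.I
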